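import Pool.Agent.Helper85_Idx.Stmts

/-!
Squad IDX (MP_429423_al), module PIG (helper69): the exchange argument.
-/

set_option autoImplicit false

namespace Pool.Agent.Idx.H69

/-- mixing with a Boolean function on positions -/
def mx {T : Type} (χ : ℕ → Bool) : ℕ → List T → List T → List T
  | s, x :: xs, y :: ys => (if χ s then y else x) :: mx χ (s + 1) xs ys
  | _, _, _ => []

theorem mixm_eq_mx {T : Type} (χ : ℕ → Bool) : ∀ (M : List Bool) (x y : List T) (s : ℕ),
    x.length ≤ M.length → (∀ j, j < x.length → χ (s + j) = M.getD j false) →
    mixm M x y = mx χ s x y
  | [], [], y, s, _, _ => by simp [mixm, mx]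
  | [], a :: x, y, s, h, _ => by simp at h
  | b :: M, [], y, s, _, _ => by simp [mixm, mx]
  | b :: M, a :: x, [], s, _, _ => by simp [mixm, mx]
  | b :: M, a :: x, c :: y, s, h, hχ => by
    have h0 : χ s = b := by simpa using hχ 0 (by simp)
    have ih := mixm_eq_mx χ M x y (s + 1) (by simpa using h) (fun j hj => by
      have := hχ (j + 1) (by simpa using hj)
      rw [show s + 1 + j = s + (j + 1) by ring, this]
      simp)
    simp only [mixm, mx, h0, ih]

theorem mx_append {T : Type} (χ : ℕ → Bool) : ∀ (x1 y1 x2 y2 : List T) (s : ℕ),
    x1.length = y1.length →
    mx χ s (x1 ++ x2) (y1 ++ y2) = mx χ s x1 y1 ++ mx χ (s + x1.length) x2 y2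
  | [], [], x2, y2, s, _ => by simp [mx]
  | [], c :: y1, x2, y2, s, h => by simp at h
  | a :: x1, [], x2, y2, s, h => by simp at h
  | a :: x1, c :: y1, x2, y2, s, h => by
    have ih := mx_append χ x1 y1 x2 y2 (s + 1) (by simpa using h)
    simp only [List.cons_append, mx, ih, List.length_cons]
    rw [show s + 1 + x1.length = s + (x1.length + 1) by ring]

theorem mx_same {T : Type} (χ : ℕ → Bool) : ∀ (x : List T) (s : ℕ), mx χ s x x = x
  | [], s => by simp [mx]
  | a :: x, s => by simp [mx, mx_same χ x (s + 1)]

theorem mx_true {T : Type} (χ : ℕ → Bool) : ∀ (x y : List T) (s : ℕ), x.length = y.length →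
    (∀ j, s ≤ j → j < s + x.length → χ j = true) → mx χ s x y = y
  | [], [], s, _, _ => by simp [mx]
  | [], c :: y, s, h, _ => by simp at h
  | a :: x, [], s, h, _ => by simp at h
  | a :: x, c :: y, s, h, hχ => by
    have ih := mx_true χ x y (s + 1) (by simpa using h) (fun j h1 h2 =>
      hχ j (by omega) (by simp only [List.length_cons]; omega))
    have h0 : χ s = true := hχ s le_rfl (by simp)
    simp [mx, h0, ih]

theorem mx_false {T : Type} (χ : ℕ → Bool) : ∀ (x y : List T) (s : ℕ), x.length = y.length →
    (∀ j, s ≤ j → j < s + x.length → χ j = false) → mx χ s x y = x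
  | [], [], s, _, _ => by simp [mx]
  | [], c :: y, s, h, _ => by simp at h
  | a :: x, [], s, h, _ => by simp at h
  | a :: x, c :: y, s, h, hχ => by
    have ih := mx_false χ x y (s + 1) (by simpa using h) (fun j h1 h2 =>
      hχ j (by omega) (by simp only [List.length_cons]; omega))
    have h0 : χ s = false := hχ s le_rfl (by simp)
    simp [mx, h0, ih]

section

variable (S : Setup) {V : Type}

theorem word_append {m : ℕ} (h : V → Fin m → Bool) (A B : List (Seg V S.T)) :
    word S h (A ++ B) = word S h A ++ word S h B := by
  simp [word]

theorem word_cons {m : ℕ} (h : V → Fin m → Bool) (g : Seg V S.T) (B : List (Seg V S.T)) :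
    word S h (g :: B) = segw S h g ++ word S h B := by
  simp [word]

theorem segw_length {m : ℕ} (h : V → Fin m → Bool) (g : Seg V S.T) :
    (segw S h g).length = slen S m g := by
  cases g with
  | pay e b => cases b <;> simp [segw, slen]
  | con u => simp [segw, slen]

theorem word_length {m : ℕ} (h : V → Fin m → Bool) (A : List (Seg V S.T)) :
    (word S h A).length = (A.map (slen S m)).sum := by
  induction A with
  | nil => simp [word]
  | cons g A ih => rw [word_cons, List.length_append, segw_length, ih]; simp

theorem val_append (a b : List S.T) : val S.ev (a ++ b) = val S.ev a * val S.ev b := by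
  simp [val]

theorem seg_inj {m : ℕ} (h h' : V → Fin m → Bool) (e : V) (b : Bool)
    (hv : val S.ev (segw S h' (Seg.pay e b)) = val S.ev (segw S h (Seg.pay e b))) :
    h' e = h e := by
  have key : ((List.ofFn (h' e)).map (fun x => S.ev (S.pl x))).prod
      = ((List.ofFn (h e)).map (fun x => S.ev (S.pl x))).prod := by
    have inv1 : ∀ g : V → Fin m → Bool, val S.ev (segw S g (Seg.pay e true))
        = (((List.ofFn (g e)).map (fun x => S.ev (S.pl x))).prod)⁻¹ := by
      intro g
      rw [List.prod_inv_reverse]
      simp only [val, segw, List.map_reverse, List.map_map]
      congr 3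
      funext x
      simp [S.inv]
    cases b with
    | false =>
      simpa [val, segw, List.map_map, Function.comp_def] using hv
    | true =>
      rw [inv1, inv1] at hv
      exact inv_injective hv
  exact List.ofFn_injective (S.free key)

theorem word_congr {m : ℕ} (h h' : V → Fin m → Bool) (e : V) (he : ∀ e', e' ≠ e → h' e' = h e')
    (A : List (Seg V S.T)) (hA : ∀ b, Seg.pay e b ∉ A) : word S h' A = word S h A := by
  unfold word
  congr 1
  refine List.map_congr_left fun g hg => ?_
  cases g with
  | con u => rfl
  | pay e' b' =>
    have hne : e' ≠ e := by
      rintro rfl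
      exact hA b' hg
    cases b' <;> simp [segw, he e' hne]

end

theorem pig : PigStmt := by
  intro S V m segs h h' M e b i i' hT hi hi' he hM htrue hfalse hval
  have hne : i ≠ i' := by
    rintro rfl
    rw [hi] at hi'
    simp at hi'
  have hil : i < segs.length := (List.getElem?_eq_some_iff.1 hi).1
  have hil' : i' < segs.length := (List.getElem?_eq_some_iff.1 hi').1
  have hsame : h' e = h e := by
    set χ : ℕ → Bool := fun j => M.getD j false with hχ
    have hmix : mixm M (word S h segs) (word S h' segs)
        = mx χ 0 (word S h segs) (word S h' segs) :=
      mixm_eq_mx χ M _ _ 0 (by rw [hM]) (fun j _ => by simp [hχ])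
    rw [hmix] at hval
    -- lengths
    have hlen : ∀ A : List (Seg V S.T), (word S h A).length = (word S h' A).length := fun A => by
      rw [word_length, word_length]
    have hslen : ∀ g : Seg V S.T, (segw S h g).length = (segw S h' g).length := fun g => by
      rw [segw_length, segw_length]
    -- splitting at an index
    have hsplit : ∀ (L : List (Seg V S.T)) (k : ℕ) (g : Seg V S.T), L[k]? = some g →
        L = L.take k ++ g :: L.drop (k + 1) := by
      intro L k g hk
      obtain ⟨h1, h2⟩ := List.getElem?_eq_some_iff.1 hk
      rw [← h2, List.getElem_cons_drop, List.take_append_drop]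
    have hmem : ∀ (A : List (Seg V S.T)) (off : ℕ), (∀ k, k < A.length →
        segs[off + k]? = A[k]?) → (i < off ∨ off + A.length ≤ i) →
        (i' < off ∨ off + A.length ≤ i') → ∀ b', Seg.pay e b' ∉ A := by
      intro A off hA h1 h2 b' hb'
      obtain ⟨k, hk, hkb⟩ := List.mem_iff_getElem.1 hb'
      have h3 : segs[off + k]? = some (Seg.pay e b') := by
        rw [hA k hk, List.getElem?_eq_getElem hk, hkb]
      have h4 : off + k = i ∨ off + k = i' := by
        rcases Bool.eq_or_eq_not b' b with rfl | hb
        · left
          exact hT.uniq _ _ _ _ h3 hi
        · right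
          rw [hb] at h3
          exact hT.uniq _ _ _ _ h3 hi'
      omega
    rcases lt_or_gt_of_ne hne with hlt | hlt
    · -- i < i'
      have e1 := hsplit segs i _ hi
      set A := segs.take i with hA
      set R := segs.drop (i + 1) with hR
      have hRi' : R[i' - (i + 1)]? = some (Seg.pay e (!b)) := by
        rw [hR, List.getElem?_drop, show i + 1 + (i' - (i + 1)) = i' by omega, hi']
      have e2 := hsplit R (i' - (i + 1)) _ hRi'
      set B := R.take (i' - (i + 1)) with hB
      set C := R.drop (i' - (i + 1) + 1) with hC
      have lA : A.length = i := by rw [hA, List.length_take]; omega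
      have lR : R.length = segs.length - (i + 1) := by rw [hR, List.length_drop]
      have lB : B.length = i' - (i + 1) := by rw [hB, List.length_take]; omega
      have nA := hmem A 0 (fun k hk => by
        rw [hA, List.getElem?_take_of_lt (by omega), Nat.zero_add]) (by omega) (by omega)
      have nB := hmem B (i + 1) (fun k hk => by
        rw [hB, List.getElem?_take_of_lt (by omega), hR, List.getElem?_drop]) (by omega) (by omega)
      have nC := hmem C (i' + 1) (fun k hk => by
        rw [hC, List.getElem?_drop, hR, List.getElem?_drop]
        congr 1
        omega) (by omega) (by omega)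
      have wA := word_congr S h h' e he A nA
      have wB := word_congr S h h' e he B nB
      have wC := word_congr S h h' e he C nC
      have st1 : start S m segs i = (word S h A).length := by
        rw [word_length]
        rfl
      have st2 : start S m segs i' = (word S h A).length + (segw S h (Seg.pay e b)).length
          + (word S h B).length := by
        rw [word_length, word_length, segw_length]
        unfold start
        have : segs.take i' = A ++ Seg.pay e b :: B := by
          conv_lhs => rw [e1]
          rw [List.take_append, lA, List.take_of_length_le (by omega : A.length ≤ i')]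
          congr 1
          rw [show i' - i = (i' - (i + 1)) + 1 by omega, List.take_succ_cons]
        rw [this]
        simp
        ring
      have hw : ∀ g : V → Fin m → Bool, word S g segs = word S g A ++ (segw S g (Seg.pay e b) ++
          (word S g B ++ (segw S g (Seg.pay e (!b)) ++ word S g C))) := by
        intro g
        conv_lhs => rw [e1]
        rw [word_append, word_cons]
        conv_lhs => rw [e2]
        rw [word_append, word_cons]
      rw [hw h, hw h', mx_append _ _ _ _ _ _ (hlen A), wA, mx_same,
        mx_append _ _ _ _ _ _ (hslen _), mx_true _ _ _ _ (hslen _) (fun j h1 h2 => ?_),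
        mx_append _ _ _ _ _ _ (hlen B), wB, mx_same, mx_append _ _ _ _ _ _ (hslen _),
        mx_false _ _ _ _ (hslen _) (fun j h1 h2 => ?_), wC, mx_same] at hval
      · simp only [val_append] at hval
        have h5 := mul_left_cancel hval
        have h6 := mul_right_cancel h5
        exact seg_inj S h h' e b h6
      · apply hfalse
        · rw [st2]; omega
        · rw [st2]
          rw [segw_length S h (Seg.pay e (!b))] at h2
          simp only [slen] at h2
          omega
      · apply htrue
        · rw [st1]; omega
        · rw [st1]
          rw [segw_length S h (Seg.pay e b)] at h2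
          simp only [slen] at h2
          omega
    · -- i' < i
      have e1 := hsplit segs i' _ hi'
      set A := segs.take i' with hA
      set R := segs.drop (i' + 1) with hR
      have hRi' : R[i - (i' + 1)]? = some (Seg.pay e b) := by
        rw [hR, List.getElem?_drop, show i' + 1 + (i - (i' + 1)) = i by omega, hi]
      have e2 := hsplit R (i - (i' + 1)) _ hRi'
      set B := R.take (i - (i' + 1)) with hB
      set C := R.drop (i - (i' + 1) + 1) with hC
      have lA : A.length = i' := by rw [hA, List.length_take]; omega
      have lR : R.length = segs.length - (i' + 1) := by rw [hR, List.length_drop]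
      have lB : B.length = i - (i' + 1) := by rw [hB, List.length_take]; omega
      have nA := hmem A 0 (fun k hk => by
        rw [hA, List.getElem?_take_of_lt (by omega), Nat.zero_add]) (by omega) (by omega)
      have nB := hmem B (i' + 1) (fun k hk => by
        rw [hB, List.getElem?_take_of_lt (by omega), hR, List.getElem?_drop]) (by omega) (by omega)
      have nC := hmem C (i + 1) (fun k hk => by
        rw [hC, List.getElem?_drop, hR, List.getElem?_drop]
        congr 1
        omega) (by omega) (by omega)
      have wA := word_congr S h h' e he A nA
      have wB := word_congr S h h' e he B nB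
      have wC := word_congr S h h' e he C nC
      have st1 : start S m segs i' = (word S h A).length := by
        rw [word_length]
        rfl
      have st2 : start S m segs i = (word S h A).length + (segw S h (Seg.pay e (!b))).length
          + (word S h B).length := by
        rw [word_length, word_length, segw_length]
        unfold start
        have : segs.take i = A ++ Seg.pay e (!b) :: B := by
          conv_lhs => rw [e1]
          rw [List.take_append, lA, List.take_of_length_le (by omega : A.length ≤ i)]
          congr 1
          rw [show i - i' = (i - (i' + 1)) + 1 by omega, List.take_succ_cons]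
        rw [this]
        simp
        ring
      have hw : ∀ g : V → Fin m → Bool, word S g segs = word S g A ++
          (segw S g (Seg.pay e (!b)) ++ (word S g B ++ (segw S g (Seg.pay e b) ++
          word S g C))) := by
        intro g
        conv_lhs => rw [e1]
        rw [word_append, word_cons]
        conv_lhs => rw [e2]
        rw [word_append, word_cons]
      rw [hw h, hw h', mx_append _ _ _ _ _ _ (hlen A), wA, mx_same,
        mx_append _ _ _ _ _ _ (hslen _), mx_false _ _ _ _ (hslen _) (fun j h1 h2 => ?_),
        mx_append _ _ _ _ _ _ (hlen B), wB, mx_same, mx_append _ _ _ _ _ _ (hslen _),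
        mx_true _ _ _ _ (hslen _) (fun j h1 h2 => ?_), wC, mx_same] at hval
      · simp only [val_append] at hval
        have h5 := mul_left_cancel (mul_left_cancel (mul_left_cancel hval))
        have h6 := mul_right_cancel h5
        exact seg_inj S h h' e b h6
      · apply htrue
        · rw [st2]; omega
        · rw [st2]
          rw [segw_length S h (Seg.pay e b)] at h2
          simp only [slen] at h2
          omega
      · apply hfalse
        · rw [st1]; omega
        · rw [st1]
          rw [segw_length S h (Seg.pay e (!b))] at h2
          simp only [slen] at h2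
          omega
  funext e'
  by_cases hee : e' = e
  · rw [hee, hsame]
  · exact he e' hee

end Pool.Agent.Idx.H69
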