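import Pool.Agent.Helper85_Idx.Stmts

/-!
Squad IDX (MP_429423_al), module TINY (helper69): the number of factors at tiny intervals.
-/

set_option autoImplicit false

namespace Pool.Agent.Idx.H69T

/-- a letter which depends on the payload, or a fixed letter -/
abbrev Cd (V : Type) (m : ℕ) (T : Type) : Type := (V × Fin m × Bool) ⊕ T

section

variable (S : Setup) {V : Type}

/-- the letter for the payload `h` -/
def lt {m : ℕ} (h : V → Fin m → Bool) : Cd V m S.T → S.T
  | Sum.inl (e, k, b) => if b then S.ni (h e k) else S.pl (h e k)
  | Sum.inr t => t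

/-- the code of a segment -/
def codeg (m : ℕ) : Seg V S.T → List (Cd V m S.T)
  | Seg.pay e false => List.ofFn fun k : Fin m => Sum.inl (e, k, false)
  | Seg.pay e true => (List.ofFn fun k : Fin m => Sum.inl (e, k, true)).reverse
  | Seg.con u => u.map Sum.inr

/-- the code of a shape -/
def code (m : ℕ) (segs : List (Seg V S.T)) : List (Cd V m S.T) := (segs.map (codeg S m)).flatten

theorem segw_code {m : ℕ} (h : V → Fin m → Bool) (g : Seg V S.T) :
    segw S h g = (codeg S m g).map (lt S h) := by
  cases g with
  | pay e b =>
    cases b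
    · simp [segw, codeg, List.map_ofFn, Function.comp_def, lt]
    · simp [segw, codeg, List.map_ofFn, Function.comp_def, lt]
  | con u => simp [segw, codeg, Function.comp_def, lt]

theorem word_code {m : ℕ} (h : V → Fin m → Bool) (segs : List (Seg V S.T)) :
    word S h segs = (code S m segs).map (lt S h) := by
  unfold word code
  rw [List.map_flatten, List.map_map]
  congr 1
  refine List.map_congr_left fun g _ => ?_
  simp [segw_code]

theorem codeg_length (m : ℕ) (g : Seg V S.T) : (codeg S m g).length = slen S m g := by
  cases g with
  | pay e b => cases b <;> simp [codeg, slen]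
  | con u => simp [codeg, slen]

theorem code_cons (m : ℕ) (g : Seg V S.T) (segs : List (Seg V S.T)) :
    code S m (g :: segs) = codeg S m g ++ code S m segs := by
  simp [code]

theorem code_length (m : ℕ) (segs : List (Seg V S.T)) :
    (code S m segs).length = start S m segs segs.length := by
  unfold start
  rw [List.take_length]
  induction segs with
  | nil => simp [code]
  | cons g A ih => rw [code_cons, List.length_append, codeg_length, ih]; simp

theorem sl_append {T : Type} (a b : List T) (s t : ℕ) :
    sl (a ++ b) s t = sl a s t ++ sl b (s - a.length) (t - a.length) := by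
  unfold sl
  rw [List.drop_append, List.take_append, List.length_drop]
  congr 2
  omega

theorem sl_map {T T' : Type} (f : T → T') (a : List T) (s t : ℕ) :
    sl (a.map f) s t = (sl a s t).map f := by
  unfold sl
  rw [List.map_take, List.map_drop]

/-- number of letters which depend on the payload -/
def cnt {m : ℕ} {T : Type} (c : List (Cd V m T)) : ℕ := (c.filter Sum.isLeft).length

theorem cnt_append {m : ℕ} {T : Type} (a b : List (Cd V m T)) :
    cnt (a ++ b) = cnt a + cnt b := by
  simp [cnt]

theorem cnt_le {m : ℕ} {T : Type} (a : List (Cd V m T)) : cnt a ≤ a.length :=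
  List.length_filter_le _ _

theorem cnt_con (m : ℕ) (u : List S.T) (s t : ℕ) :
    cnt (sl (codeg S m (Seg.con u : Seg V S.T)) s t) = 0 := by
  unfold cnt
  rw [List.length_eq_zero_iff, List.filter_eq_nil_iff]
  intro x hx
  have h1 : x ∈ codeg S m (Seg.con u : Seg V S.T) :=
    List.mem_of_mem_drop (List.mem_of_mem_take hx)
  simp only [codeg, List.mem_map] at h1
  obtain ⟨a, _, rfl⟩ := h1
  simp

theorem sl_length_le {T : Type} (a : List T) (s t : ℕ) : (sl a s t).length ≤ t - s := by
  unfold sl
  rw [List.length_take]
  exact min_le_left _ _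

theorem sl_length_le' {T : Type} (a : List T) (s t : ℕ) : (sl a s t).length ≤ a.length - s := by
  unfold sl
  rw [List.length_take, List.length_drop]
  exact min_le_right _ _

theorem sl_zero {T : Type} (a : List T) (s t : ℕ) (h : t ≤ s) : sl a s t = [] := by
  unfold sl
  rw [Nat.sub_eq_zero_of_le h, List.take_zero]

/-- no block is contained in the interval -/
def Tin (p l : ℕ) (segs : List (Seg V S.T)) (s t : ℕ) : Prop :=
  ∀ i e b j, segs[i]? = some (Seg.pay e b) → j < p →
    ¬ (s ≤ start S (p * l) segs i + j * l ∧ start S (p * l) segs i + j * l + l ≤ t)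

theorem tin_tail {p l : ℕ} (hl : 1 ≤ l) {g : Seg V S.T} {segs : List (Seg V S.T)} {s t : ℕ}
    (h : Tin S p l (g :: segs) s t) :
    Tin S p l segs (s - slen S (p * l) g) (t - slen S (p * l) g) := by
  intro i e b j hi hj hc
  refine h (i + 1) e b j (by simpa using hi) hj ?_
  have h1 : start S (p * l) (g :: segs) (i + 1) = slen S (p * l) g + start S (p * l) segs i := by
    simp [start]
  rw [h1]
  omega

theorem cnt0 {p l : ℕ} (hp : 1 ≤ p) (hl : 1 ≤ l) : ∀ (segs : List (Seg V S.T)) (t : ℕ),
    Tin S p l segs 0 t → cnt (sl (code S (p * l) segs) 0 t) ≤ l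
  | [], t, _ => by simp [code, sl, cnt]
  | g :: segs, t, h => by
    rw [code_cons, sl_append, cnt_append, codeg_length]
    have ih := cnt0 hp hl segs (t - slen S (p * l) g) (by
      have := tin_tail S hl h
      rwa [Nat.zero_sub] at this)
    rw [Nat.zero_sub]
    cases g with
    | con u => rw [cnt_con]; omega
    | pay e b =>
      have h0 := h 0 e b 0 (by simp) (by omega)
      have h1 : start S (p * l) (Seg.pay e b :: segs) 0 = 0 := by simp [start]
      rw [h1] at h0
      have h2 : t < l := by
        by_contra hcon
        exact h0 (by omega)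
      have h3 : l ≤ p * l := Nat.le_mul_of_pos_left l hp
      have h4 : slen S (p * l) (Seg.pay e b : Seg V S.T) = p * l := rfl
      rw [h4, sl_zero (code S (p * l) segs) 0 (t - p * l) (by omega)]
      have h5 := cnt_le (sl (codeg S (p * l) (Seg.pay e b : Seg V S.T)) 0 t)
      have h6 := sl_length_le (codeg S (p * l) (Seg.pay e b : Seg V S.T)) 0 t
      have h7 : cnt ([] : List (Cd V (p * l) S.T)) = 0 := rfl
      omega

theorem cnt1 {p l : ℕ} (hp : 1 ≤ p) (hl : 1 ≤ l) : ∀ (segs : List (Seg V S.T)) (s t : ℕ),
    Tin S p l segs s t → cnt (sl (code S (p * l) segs) s t) ≤ 2 * l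
  | [], s, t, _ => by simp [code, sl, cnt]
  | g :: segs, s, t, h => by
    have htail := tin_tail S hl h
    have ih := cnt1 hp hl segs _ _ htail
    rw [code_cons, sl_append, cnt_append, codeg_length]
    cases g with
    | con u => rw [cnt_con]; omega
    | pay e b =>
      have h4 : slen S (p * l) (Seg.pay e b : Seg V S.T) = p * l := rfl
      rw [h4] at htail ih ⊢
      have h5 := cnt_le (sl (codeg S (p * l) (Seg.pay e b : Seg V S.T)) s t)
      have h6 := sl_length_le (codeg S (p * l) (Seg.pay e b : Seg V S.T)) s t
      have h6' := sl_length_le' (codeg S (p * l) (Seg.pay e b : Seg V S.T)) s t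
      rw [codeg_length, h4] at h6'
      have h1 : start S (p * l) (Seg.pay e b :: segs) 0 = 0 := by simp [start]
      rcases le_or_gt (p * l) s with hs | hs
      · omega
      · -- the first block which starts at or after `s`
        have hs0 : s - p * l = 0 := by omega
        rw [hs0] at htail ih ⊢
        have ih0 := cnt0 S hp hl segs (t - p * l) htail
        set j1 : ℕ := (s + l - 1) / l with hj1
        have q1 : s ≤ j1 * l := by
          have := Nat.lt_div_mul_add (a := s + l - 1) (b := l) (by omega)
          rw [← hj1] at this
          omega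
        have q2 : j1 * l < s + l := by
          have := Nat.div_mul_le_self (s + l - 1) l
          rw [← hj1] at this
          omega
        rcases lt_or_ge j1 p with hjp | hjp
        · have h0 := h 0 e b j1 (by simp) hjp
          rw [h1, Nat.zero_add] at h0
          have h2 : t < j1 * l + l := by
            by_contra hcon
            exact h0 ⟨q1, by omega⟩
          have h3 : j1 * l + l ≤ p * l := by
            have : (j1 + 1) * l ≤ p * l := Nat.mul_le_mul_right l hjp
            linarith
          rw [sl_zero (code S (p * l) segs) 0 (t - p * l) (by omega)]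
          have h7 : cnt ([] : List (Cd V (p * l) S.T)) = 0 := rfl
          omega
        · have h3 : p * l ≤ j1 * l := Nat.mul_le_mul_right l hjp
          omega

open Classical in
/-- all words with a given code -/
noncomputable def Ws {m : ℕ} : List (Cd V m S.T) → Finset (List S.T)
  | [] => {[]}
  | Sum.inl (_, _, b) :: c => (Ws c).image (List.cons (if b then S.ni true else S.pl true)) ∪
      (Ws c).image (List.cons (if b then S.ni false else S.pl false))
  | Sum.inr t :: c => (Ws c).image (List.cons t)

open Classical in
theorem Ws_card {m : ℕ} : ∀ c : List (Cd V m S.T), (Ws S c).card ≤ 2 ^ cnt c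
  | [] => by simp [Ws, cnt]
  | Sum.inl (e, k, b) :: c => by
    have ih := Ws_card c
    have h1 : cnt ((Sum.inl (e, k, b) : Cd V m S.T) :: c) = cnt c + 1 := by
      unfold cnt
      rw [List.filter_cons_of_pos (by rfl), List.length_cons]
    rw [h1, pow_succ]
    unfold Ws
    refine (Finset.card_union_le _ _).trans ?_
    have h2 := Finset.card_image_le (s := Ws S c)
      (f := List.cons (if b then S.ni true else S.pl true))
    have h3 := Finset.card_image_le (s := Ws S c)
      (f := List.cons (if b then S.ni false else S.pl false))
    omega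
  | Sum.inr t :: c => by
    have ih := Ws_card c
    have h1 : cnt ((Sum.inr t : Cd V m S.T) :: c) = cnt c := by
      unfold cnt
      rw [List.filter_cons_of_neg (by simp)]
    rw [h1]
    unfold Ws
    exact Finset.card_image_le.trans ih

open Classical in
theorem Ws_mem {m : ℕ} (h : V → Fin m → Bool) : ∀ c : List (Cd V m S.T),
    c.map (lt S h) ∈ Ws S c
  | [] => by simp [Ws]
  | Sum.inl (e, k, b) :: c => by
    have ih := Ws_mem h c
    unfold Ws
    rw [Finset.mem_union, List.map_cons]
    cases hk : h e k with
    | true =>
      left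
      exact Finset.mem_image.2 ⟨_, ih, by simp [lt, hk]⟩
    | false =>
      right
      exact Finset.mem_image.2 ⟨_, ih, by simp [lt, hk]⟩
  | Sum.inr t :: c => by
    have ih := Ws_mem h c
    unfold Ws
    rw [List.map_cons]
    exact Finset.mem_image.2 ⟨_, ih, rfl⟩

theorem tin_of_not_big {p l : ℕ} {segs : List (Seg V S.T)} {s t : ℕ}
    (h : ¬ BigI S p l segs s t) : Tin S p l segs s t := by
  intro i e b j hi hj hc
  apply h
  cases b with
  | false =>
    refine ⟨i, e, false, j, hi, hj, ?_⟩
    unfold blk
    simpa using hc
  | true =>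
    refine ⟨i, e, true, p - 1 - j, hi, by omega, ?_⟩
    unfold blk
    have : p - 1 - (p - 1 - j) = j := by omega
    simpa [this] using hc

end

open Classical in
theorem tiny : TinyStmt := by
  intro S V _ p l segs hp hl
  set n := start S (p * l) segs segs.length with hn
  have hlen : ∀ h : V → Fin (p * l) → Bool, (word S h segs).length = n := fun h => by
    rw [word_code, List.length_map, code_length]
  set F : Finset (List S.T) := (Finset.range (n + 1) ×ˢ Finset.range (n + 1)).biUnion
    (fun x => if Tin S p l segs x.1 x.2 then Ws S (sl (code S (p * l) segs) x.1 x.2) else ∅)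
    with hF
  have hsub : {w : List S.T | ∃ (h : V → Fin (p * l) → Bool) (s t : ℕ), s ≤ t ∧
      t ≤ (word S h segs).length ∧ ¬ BigI S p l segs s t ∧ w = sl (word S h segs) s t} ⊆
      (F : Set (List S.T)) := by
    rintro w ⟨h, s, t, hst, ht, hbig, rfl⟩
    rw [hlen h] at ht
    have hT := tin_of_not_big S hbig
    rw [hF, Finset.mem_coe, Finset.mem_biUnion]
    refine ⟨(s, t), ?_, ?_⟩
    · rw [Finset.mem_product, Finset.mem_range, Finset.mem_range]
      exact ⟨by omega, by omega⟩
    · rw [if_pos hT, word_code, sl_map]
      exact Ws_mem S h _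
  have hcard : F.card ≤ (n + 1) ^ 2 * 4 ^ l := by
    have h1 : F.card ≤ (Finset.range (n + 1) ×ˢ Finset.range (n + 1)).card * 4 ^ l := by
      refine Finset.card_biUnion_le_card_mul _ _ _ fun x _ => ?_
      split_ifs with hx
      · refine (Ws_card S _).trans ?_
        calc 2 ^ cnt (sl (code S (p * l) segs) x.1 x.2) ≤ 2 ^ (2 * l) :=
              Nat.pow_le_pow_right (by norm_num) (cnt1 S hp hl segs _ _ hx)
          _ = 4 ^ l := by rw [pow_mul]; norm_num
      · simp
    rw [Finset.card_product, Finset.card_range] at h1
    rw [sq]
    exact h1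
  refine ⟨F.finite_toSet.subset hsub, ?_⟩
  refine (Set.ncard_le_ncard hsub F.finite_toSet).trans ?_
  rw [Set.ncard_coe_finset]
  exact hcard

end Pool.Agent.Idx.H69T
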